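import Pool.Agent.H815.QC.Stm3

/-!
# Project QC, task SUM: the classes form a partition
-/

set_option autoImplicit false

namespace Pool.Agent.H612.QC

open Pool.Agent.H815.QC

theorem lc_eq {V : Type} (Λ : SimpleGraph V) (S : V → Prop) {w v : V} (h : lc Λ S w v) :
    lc Λ S w = lc Λ S v := by
  funext w'
  apply propext
  constructor
  · rintro ⟨h1, h2⟩
    exact ⟨h1, fun u => (h2 u).trans (h.2 u).symm⟩
  · rintro ⟨h1, h2⟩
    exact ⟨h1, fun u => (h2 u).trans (h.2 u)⟩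

theorem SUM_proof : Pool.Agent.H815.QC.S_SUM := by
  intro V _ Λ S _
  rw [← Nat.card_sigma]
  refine Nat.card_congr ⟨fun x => ⟨x.2.1, ?_⟩,
    fun v => ⟨⟨lc Λ S v.1, v.1, v.2, rfl⟩, ⟨v.1, v.2, fun _ => Iff.rfl⟩⟩, ?_, ?_⟩
  · obtain ⟨⟨T, w, hw, hT⟩, ⟨v, hv⟩⟩ := x
    subst hT
    exact hv.1
  · rintro ⟨⟨T, w, hw, hT⟩, ⟨v, hv⟩⟩
    subst hT
    have h := lc_eq Λ S hv
    apply Sigma.ext
    · exact Subtype.ext h.symm
    · dsimp only
      have h2 : ∀ (T T' : V → Prop) (hT : T v) (hT' : T' v), T = T' →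
          HEq (⟨v, hT⟩ : {v // T v}) (⟨v, hT'⟩ : {v // T' v}) := by
        intro T T' hT hT' hTT
        subst hTT
        rfl
      exact h2 _ _ _ _ h.symm
  · rintro ⟨v, hv⟩
    rfl

end Pool.Agent.H612.QC
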